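import Pool.Agent.Q76.H2.Stm

/-!
# Job D of project H2: the bipolar theorem and two consequences
-/

set_option autoImplicit false

open Set Filter Topology MeasureTheory

namespace Pool.Agent.Q223.H2.D

open Pool.Agent.Q76.HR Pool.Agent.Q76.H2

section cones

variable {F : Type} [NormedAddCommGroup F] [InnerProductSpace ℝ F] [FiniteDimensional ℝ F]

omit [FiniteDimensional ℝ F] in
lemma cn_convex {K : Set (Sp F)} (hK : Cn K) : Convex ℝ K := by
  intro x hx y hy s t hs ht _
  exact hK.add _ (hK.smul x hx s hs) _ (hK.smul y hy t ht)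

omit [FiniteDimensional ℝ F] in
lemma cn_zero {K : Set (Sp F)} (hK : Cn K) : (0 : Sp F) ∈ K := by
  have := hK.smul ev hK.ev_mem 0 le_rfl
  rwa [zero_smul] at this

/-- Separation of a point from the cone. -/
lemma sep {K : Set (Sp F)} (hK : Cn K) {q : Sp F} (hq : q ∉ K) :
    ∃ ξ : Sp F, (∀ r ∈ K, 0 ≤ inner ℝ ξ r) ∧ inner ℝ ξ q < 0 := by
  have : FiniteDimensional ℝ (Sp F) := inferInstance
  have : CompleteSpace (Sp F) := FiniteDimensional.complete ℝ (Sp F)
  obtain ⟨g, u, hgq, hgK⟩ := geometric_hahn_banach_point_closed (cn_convex hK) hK.closed hq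
  have hg : ∀ x, inner ℝ ((InnerProductSpace.toDual ℝ (Sp F)).symm g) x = g x := fun x =>
    InnerProductSpace.toDual_symm_apply
  have hu : u < 0 := by
    have := hgK 0 (cn_zero hK)
    rwa [map_zero] at this
  refine ⟨(InnerProductSpace.toDual ℝ (Sp F)).symm g, ?_, ?_⟩
  · intro r hr
    rw [hg]
    by_contra hneg
    have hneg' : g r < 0 := not_le.1 hneg
    have h1 := hgK ((u / g r) • r) (hK.smul r hr _ (div_nonneg_of_nonpos hu.le hneg'.le))
    rw [map_smul, smul_eq_mul, div_mul_cancel₀ _ hneg'.ne] at h1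
    exact lt_irrefl _ h1
  · rw [hg]
    exact hgq.trans hu

omit [FiniteDimensional ℝ F] in
/-- The slope of a functional of the dual cone. -/
lemma slope {K : Set (Sp F)} {ξ : Sp F} (h : ∀ r ∈ K, 0 ≤ inner ℝ ξ r) (hs : 0 < ξ.snd) :
    (-(ξ.snd)⁻¹) • ξ.fst ∈ Pd K := by
  intro q hq
  have h1 := h q hq
  rw [inner_sp] at h1
  rw [inner_smul_left, conj_trivial]
  have h2 : 0 ≤ (ξ.snd)⁻¹ * (inner ℝ ξ.fst q.fst + ξ.snd * q.snd) :=
    mul_nonneg (inv_nonneg.2 hs.le) h1
  rw [mul_add, ← mul_assoc, inv_mul_cancel₀ hs.ne', one_mul] at h2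
  linarith

lemma pd_nonempty {K : Set (Sp F)} (hK : Cn K) : (Pd K).Nonempty := by
  obtain ⟨ξ, h1, h2⟩ := sep hK hK.neg_ev
  rw [inner_neg_right, inner_ev] at h2
  exact ⟨_, slope h1 (by linarith)⟩

/-- The bipolar theorem. -/
lemma bip {K : Set (Sp F)} (hK : Cn K) {q : Sp F} (h : ∀ p ∈ Pd K, inner ℝ p q.fst ≤ q.snd) :
    q ∈ K := by
  by_contra hq
  obtain ⟨ξ, h1, h2⟩ := sep hK hq
  obtain ⟨p₀, hp₀⟩ := pd_nonempty hK
  have hsnd : 0 ≤ ξ.snd := by
    have := h1 ev hK.ev_mem
    rwa [inner_ev] at this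
  have hA := h p₀ hp₀
  set A : ℝ := q.snd - inner ℝ p₀ q.fst with hAdef
  have hA0 : 0 ≤ A := by rw [hAdef]; linarith
  set ε : ℝ := -(inner ℝ ξ q) / (2 * (A + 1)) with hε
  have hε0 : 0 < ε := by
    rw [hε]
    apply div_pos (by linarith) (by linarith)
  have hεA : ε * A < -(inner ℝ ξ q) := by
    have e1 : ε * (2 * (A + 1)) = -(inner ℝ ξ q) := by
      rw [hε]
      exact div_mul_cancel₀ _ (by linarith)
    nlinarith
  set ζ : Sp F := ξ + ε • pt (-p₀) 1 with hζ
  have hin : ∀ r : Sp F, inner ℝ ζ r = inner ℝ ξ r + ε * (r.snd - inner ℝ p₀ r.fst) := by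
    intro r
    rw [hζ, inner_add_left, inner_smul_left, conj_trivial, inner_sp (pt (-p₀) 1), pt_fst, pt_snd,
      inner_neg_left]
    ring
  have hζK : ∀ r ∈ K, 0 ≤ inner ℝ ζ r := by
    intro r hr
    rw [hin]
    have h3 := h1 r hr
    have h4 := hp₀ r hr
    have h5 : 0 ≤ ε * (r.snd - inner ℝ p₀ r.fst) := mul_nonneg hε0.le (by linarith)
    linarith
  have hζq : inner ℝ ζ q < 0 := by
    rw [hin, ← hAdef]
    linarith
  have hζs : 0 < ζ.snd := by
    rw [hζ, snd_add, snd_smul, pt_snd, mul_one]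
    linarith
  have h6 := h _ (slope hζK hζs)
  rw [inner_smul_left, conj_trivial] at h6
  have h7 : ζ.snd * (-(ζ.snd)⁻¹ * inner ℝ ζ.fst q.fst) ≤ ζ.snd * q.snd :=
    mul_le_mul_of_nonneg_left h6 hζs.le
  have h8 : ζ.snd * (-(ζ.snd)⁻¹ * inner ℝ ζ.fst q.fst) = -(inner ℝ ζ.fst q.fst) := by
    field_simp
  rw [h8] at h7
  rw [inner_sp] at hζq
  linarith

omit [FiniteDimensional ℝ F] in
lemma pd_convex (K : Set (Sp F)) : Convex ℝ (Pd K) := by
  intro x hx y hy s t hs ht hst q hq
  rw [inner_add_left, inner_smul_left, inner_smul_left, conj_trivial, conj_trivial]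
  have h1 := mul_le_mul_of_nonneg_left (hx q hq) hs
  have h2 := mul_le_mul_of_nonneg_left (hy q hq) ht
  have h3 : s * q.snd + t * q.snd = q.snd := by rw [← add_mul, hst, one_mul]
  linarith

end cones

theorem a (F : Type) [NormedAddCommGroup F] [InnerProductSpace ℝ F] [FiniteDimensional ℝ F]
    [MeasurableSpace F] [BorelSpace F] : S_D F := by
  intro K hK
  constructor
  · intro hnull
    have hint : ¬ (interior (Pd K)).Nonempty := by
      intro hne
      have h1 := isOpen_interior.measure_pos (volume : Measure F) hne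
      have h2 : volume (interior (Pd K)) = 0 := measure_mono_null interior_subset hnull
      rw [h2] at h1
      exact lt_irrefl _ h1
    rw [(pd_convex K).interior_nonempty_iff_affineSpan_eq_top] at hint
    obtain ⟨p₀, hp₀⟩ := pd_nonempty hK
    have hp₀' : p₀ ∈ affineSpan ℝ (Pd K) := subset_affineSpan ℝ _ hp₀
    have hdir : (affineSpan ℝ (Pd K)).direction ≠ ⊤ := by
      intro h
      apply hint
      exact (AffineSubspace.direction_eq_top_iff_of_nonempty ⟨p₀, hp₀'⟩).1 h
    have horth : ((affineSpan ℝ (Pd K)).direction)ᗮ ≠ ⊥ := by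
      intro h
      exact hdir (Submodule.orthogonal_eq_bot_iff.1 h)
    obtain ⟨e, he, he0⟩ := (Submodule.ne_bot_iff _).1 horth
    have hconst : ∀ p ∈ Pd K, inner ℝ p e = (inner ℝ p₀ e : ℝ) := by
      intro p hp
      have h1 : p -ᵥ p₀ ∈ (affineSpan ℝ (Pd K)).direction :=
        AffineSubspace.vsub_mem_direction (subset_affineSpan ℝ _ hp) hp₀'
      have h2 := (Submodule.mem_orthogonal _ e).1 he _ h1
      rw [vsub_eq_sub, inner_sub_left] at h2
      linarith
    refine ⟨e, inner ℝ p₀ e, he0, bip hK ?_, bip hK ?_⟩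
    · intro p hp
      rw [pt_fst, pt_snd]
      exact (hconst p hp).le
    · intro p hp
      rw [pt_fst, pt_snd, inner_neg_right, hconst p hp]
  · intro hcone q hq
    obtain ⟨p₀, hp₀⟩ := pd_nonempty hK
    constructor
    · have h1 := hcone p₀ hp₀ 0 le_rfl q hq
      rwa [zero_smul, inner_zero_left] at h1
    · apply bip hK
      intro p hp
      rw [pt_fst, pt_snd]
      by_contra hpos
      have hpos' : 0 < (inner ℝ p q.fst : ℝ) := not_le.1 hpos
      have hq0 : 0 ≤ q.snd := by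
        have h1 := hcone p₀ hp₀ 0 le_rfl q hq
        rwa [zero_smul, inner_zero_left] at h1
      have h1 := hcone p hp ((q.snd + 1) / inner ℝ p q.fst)
        (div_nonneg (by linarith) hpos'.le) q hq
      rw [inner_smul_left, conj_trivial, div_mul_cancel₀ _ hpos'.ne'] at h1
      linarith

end Pool.Agent.Q223.H2.D
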