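import Pool.Agent.Q76.H2.Stm

/-!
# Job P of project H2: the planar reduction
-/

set_option autoImplicit false

open Set Filter Topology MeasureTheory

namespace Pool.Agent.Q223.H2.P

open Pool.Agent.Q76.HR Pool.Agent.Q76.H2

section maps

variable {F : Type} [NormedAddCommGroup F] [InnerProductSpace ℝ F]

/-- The isometric embedding of the plane. -/
def J (e m : F) (k d : ℝ) : Sp ℝ →ₗ[ℝ] Sp F where
  toFun q := pt (q.fst • m - (q.snd * k * d) • e) (q.snd * k)
  map_add' p q := by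
    apply ext'
    · simp only [pt_fst, fst_add, snd_add]
      module
    · simp only [pt_snd, snd_add]
      ring
  map_smul' r q := by
    apply ext'
    · simp only [pt_fst, fst_smul, snd_smul, RingHom.id_apply, smul_eq_mul]
      module
    · simp only [pt_snd, snd_smul, RingHom.id_apply]
      ring

/-- Its adjoint. -/
def Q (e m : F) (k d : ℝ) : Sp F →ₗ[ℝ] Sp ℝ where
  toFun p := pt (inner ℝ m p.fst) (k * (p.snd - d * inner ℝ e p.fst))
  map_add' p q := by
    apply ext'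
    · simp only [pt_fst, fst_add, inner_add_right]
    · simp only [pt_snd, snd_add, fst_add, inner_add_right]
      ring
  map_smul' r q := by
    apply ext'
    · simp only [pt_fst, fst_smul, RingHom.id_apply, inner_smul_right, smul_eq_mul]
    · simp only [pt_snd, snd_smul, fst_smul, RingHom.id_apply, inner_smul_right]
      ring

lemma J_fst (e m : F) (k d : ℝ) (q : Sp ℝ) :
    (J e m k d q).fst = q.fst • m - (q.snd * k * d) • e := rfl

lemma J_snd (e m : F) (k d : ℝ) (q : Sp ℝ) : (J e m k d q).snd = q.snd * k := rfl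

lemma Q_fst (e m : F) (k d : ℝ) (p : Sp F) : (Q e m k d p).fst = inner ℝ m p.fst := rfl

lemma Q_snd (e m : F) (k d : ℝ) (p : Sp F) :
    (Q e m k d p).snd = k * (p.snd - d * inner ℝ e p.fst) := rfl

variable {e m : F} {k d : ℝ}

lemma J_inner (hm : ‖m‖ = 1) (he : ‖e‖ = 1) (hem : inner ℝ e m = 0)
    (hk : k ^ 2 * (1 + d ^ 2) = 1) (p : Sp ℝ) :
    inner ℝ (J e m k d p) (J e m k d p) = inner ℝ p p := by
  have hme : inner ℝ m e = 0 := by rw [real_inner_comm]; exact hem
  have h1 : inner ℝ m m = (1 : ℝ) := by rw [real_inner_self_eq_norm_sq, hm]; norm_num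
  have h2 : inner ℝ e e = (1 : ℝ) := by rw [real_inner_self_eq_norm_sq, he]; norm_num
  have h3 : inner ℝ p.fst p.fst = p.fst ^ 2 := by
    rw [real_inner_self_eq_norm_sq, Real.norm_eq_abs, sq_abs]
  rw [inner_sp, inner_sp, J_fst, J_snd, h3]
  simp only [inner_sub_left, inner_sub_right, inner_smul_left, inner_smul_right, hem, hme, h1, h2,
    conj_trivial]
  linear_combination (p.snd ^ 2) * hk

lemma J_norm (hm : ‖m‖ = 1) (he : ‖e‖ = 1) (hem : inner ℝ e m = 0)
    (hk : k ^ 2 * (1 + d ^ 2) = 1) (p : Sp ℝ) : ‖J e m k d p‖ = ‖p‖ := by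
  have h := J_inner hm he hem hk p
  rw [real_inner_self_eq_norm_sq, real_inner_self_eq_norm_sq] at h
  exact (sq_eq_sq₀ (norm_nonneg _) (norm_nonneg _)).1 h

/-- A point differs from its projection by a multiple of the direction `(e, d)`. -/
lemma sub_J_Q (hdec : ∀ x : F, x = inner ℝ e x • e + inner ℝ m x • m)
    (hk : k ^ 2 * (1 + d ^ 2) = 1) (p : Sp F) :
    p = J e m k d (Q e m k d p) + (k ^ 2 * (inner ℝ e p.fst + d * p.snd)) • pt e d := by
  apply ext'
  · rw [fst_add, J_fst, Q_fst, Q_snd, fst_smul, pt_fst]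
    have h := hdec p.fst
    have h2 : inner ℝ m p.fst • m - (k * (p.snd - d * inner ℝ e p.fst) * k * d) • e +
        (k ^ 2 * (inner ℝ e p.fst + d * p.snd)) • e =
        (k ^ 2 * (1 + d ^ 2) * inner ℝ e p.fst) • e + inner ℝ m p.fst • m := by
      module
    rw [h2, hk, one_mul]
    exact h
  · rw [snd_add, J_snd, Q_snd, snd_smul, pt_snd]
    linear_combination (-p.snd) * hk

end maps

variable {F : Type} [NormedAddCommGroup F] [InnerProductSpace ℝ F]

lemma kap_sq (δ a : ℝ) : (kap δ a) ^ 2 * (1 + (a * δ) ^ 2) = 1 := by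
  have h : 0 < 1 + (a * δ) ^ 2 := by positivity
  unfold kap
  rw [div_pow, one_pow, Real.sq_sqrt h.le]
  field_simp

lemma kap_pos (δ a : ℝ) : 0 < kap δ a := by
  unfold kap
  have h : 0 < 1 + (a * δ) ^ 2 := by positivity
  exact div_pos one_pos (Real.sqrt_pos.2 h)

/-- The graph of the planar function is the section of the graph. -/
lemma gr_iff {f : F → ℝ} {e m : F} {δ : ℝ} (hδ : pt e δ ∈ La f) (a : ℝ) (q : Sp ℝ) :
    q ∈ Gr (fun s : ℝ => kap δ a * f ((a * s) • m)) ↔
      J e m (kap δ a) (a * δ) q ∈ Gr (sc f a) := by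
  have h1 := hδ ((a * q.fst) • m) (-(q.snd * kap δ a * (a * δ)) * a)
  rw [pt_fst, pt_snd] at h1
  have h2 : a • (q.fst • m - (q.snd * kap δ a * (a * δ)) • e) =
      (a * q.fst) • m + (-(q.snd * kap δ a * (a * δ)) * a) • e := by
    module
  have hk := kap_sq δ a
  have hp := kap_pos δ a
  have e1 : q ∈ Gr (fun s : ℝ => kap δ a * f ((a * s) • m)) ↔
      q.snd = kap δ a * f ((a * q.fst) • m) := Iff.rfl
  have e2 : J e m (kap δ a) (a * δ) q ∈ Gr (sc f a) ↔
      q.snd * kap δ a = f (a • (q.fst • m - (q.snd * kap δ a * (a * δ)) • e)) := Iff.rfl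
  rw [e1, e2, h2, h1]
  constructor
  · intro h
    have h3 : q.snd * kap δ a * (1 + (a * δ) ^ 2) = f ((a * q.fst) • m) := by
      have h4 : q.snd * kap δ a * (1 + (a * δ) ^ 2) =
          (kap δ a * f ((a * q.fst) • m)) * kap δ a * (1 + (a * δ) ^ 2) := by rw [← h]
      rw [h4]
      linear_combination (f ((a * q.fst) • m)) * hk
    linear_combination h3
  · intro h
    have h3 : q.snd * kap δ a * (1 + (a * δ) ^ 2) = f ((a * q.fst) • m) := by
      linear_combination h
    rw [← h3]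
    linear_combination (-q.snd) * hk

/-- The translations preserving the graph. -/
lemma La_line [FiniteDimensional ℝ F] {f : F → ℝ} {e m : F}
    (hdec : ∀ x : F, x = inner ℝ e x • e + inner ℝ m x • m) {δ : ℝ} (hδ : pt e δ ∈ La f)
    (hna : ¬ ∃ L : F →ₗ[ℝ] ℝ, ∀ x, f x = f 0 + L x) {c : ℝ} (hc : 0 < c) {p : Sp F}
    (hp : p ∈ La (sc f c)) : p = (inner ℝ e p.fst) • pt e (c * δ) := by
  have hu : pt e (c * δ) ∈ La (sc f c) := by
    rw [mem_La_sc hc, pt_fst, pt_snd]
    have := (La f).smul_mem c hδ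
    exact this
  have h1 : p - (inner ℝ e p.fst) • pt e (c * δ) ∈ La (sc f c) :=
    (La _).sub_mem hp ((La _).smul_mem _ hu)
  have h2 : (p - (inner ℝ e p.fst) • pt e (c * δ)).fst = inner ℝ m p.fst • m := by
    rw [fst_sub, fst_smul, pt_fst]
    have := hdec p.fst
    rw [sub_eq_iff_eq_add']
    exact this
  have h3 : inner ℝ m p.fst = (0 : ℝ) := by
    by_contra hne
    refine hna (affine_of_const ?_)
    have hm : m ∈ Vs f := by
      have h4 := fst_mem_Vs hc h1
      rw [h2] at h4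
      have h5 := (Vs f).smul_mem (inner ℝ m p.fst)⁻¹ h4
      rwa [smul_smul, inv_mul_cancel₀ hne, one_smul] at h5
    have he : e ∈ Vs f := ⟨δ, hδ⟩
    have htop : Vs f = ⊤ := by
      rw [eq_top_iff]
      intro x _
      rw [hdec x]
      exact (Vs f).add_mem ((Vs f).smul_mem _ he) ((Vs f).smul_mem _ hm)
    have hbot : (Vs f)ᗮ = ⊥ := by rw [htop]; exact Submodule.top_orthogonal_eq_bot
    have hz : ∀ x : (Vs f)ᗮ, (x : F) = 0 := by
      intro x
      have hx : (x : F) ∈ (⊥ : Submodule ℝ F) := hbot ▸ x.2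
      exact (Submodule.mem_bot ℝ).1 hx
    intro x y
    rw [hz x, hz y]
  rw [h3, zero_smul] at h2
  have h4 : p - (inner ℝ e p.fst) • pt e (c * δ) =
      (p - (inner ℝ e p.fst) • pt e (c * δ)).snd • ev := by
    apply ext'
    · rw [h2, fst_smul, ev_fst, smul_zero]
    · rw [snd_smul, ev_snd, mul_one]
  have h5 : (p - (inner ℝ e p.fst) • pt e (c * δ)).snd = 0 := by
    by_contra hne
    rw [h4] at h1
    have h6 := (La (sc f c)).smul_mem ((p - (inner ℝ e p.fst) • pt e (c * δ)).snd)⁻¹ h1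
    rw [smul_smul, inv_mul_cancel₀ hne, one_smul] at h6
    exact ev_not_mem_La _ h6
  rw [h5, zero_smul] at h4
  exact sub_eq_zero.1 h4

theorem a (F : Type) [NormedAddCommGroup F] [InnerProductSpace ℝ F] [FiniteDimensional ℝ F] :
    S_P F := by
  intro f hf e m he hm hem hdec δ hδ hna c hc O τ hO
  set k1 := kap δ 1 with hk1
  set k2 := kap δ c with hk2
  have hK1 : k1 ^ 2 * (1 + (1 * δ) ^ 2) = 1 := kap_sq δ 1
  have hK2 : k2 ^ 2 * (1 + (c * δ) ^ 2) = 1 := kap_sq δ c
  have hk1p : 0 < k1 := kap_pos δ 1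
  have hk2p : 0 < k2 := kap_pos δ c
  have hue : ∀ (d : ℝ) (p : Sp F), inner ℝ p (pt e d) = inner ℝ e p.fst + d * p.snd := by
    intro d p
    rw [inner_sp, pt_fst, pt_snd, real_inner_comm]
    ring
  have hee : inner ℝ e e = (1 : ℝ) := by rw [real_inner_self_eq_norm_sq, he]; norm_num
  -- the image of the direction of the translations
  have hu1 : pt e (1 * δ) ∈ La f := by rw [one_mul]; exact hδ
  have huc : pt e (c * δ) ∈ La (sc f c) := by
    rw [mem_La_sc hc, pt_fst, pt_snd]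
    have := (La f).smul_mem c hδ
    exact this
  obtain ⟨t, ht⟩ : ∃ t : ℝ, O (pt e (1 * δ)) = t • pt e (c * δ) :=
    ⟨_, La_line hdec hδ hna hc (hO.La_map hu1)⟩
  have ht0 : t ≠ 0 := by
    intro h0
    rw [h0, zero_smul] at ht
    have h1 : pt e (1 * δ) = (0 : Sp F) := by
      have := O.injective (ht.trans (map_zero O).symm)
      exact this
    have h2 : e = 0 := congrArg (fun p : Sp F => p.fst) h1
    rw [h2, norm_zero] at he
    exact zero_ne_one he
  -- the complement is preserved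
  have horth : ∀ q : Sp ℝ, inner ℝ e (O (J e m k1 (1 * δ) q)).fst +
      (c * δ) * (O (J e m k1 (1 * δ) q)).snd = 0 := by
    intro q
    rw [← hue]
    have h1 : inner ℝ (O (J e m k1 (1 * δ) q)) (O (pt e (1 * δ))) = (0 : ℝ) := by
      rw [LinearIsometryEquiv.inner_map_map, hue, J_fst, J_snd]
      simp only [inner_sub_right, inner_smul_right, hem, hee]
      ring
    rw [ht, inner_smul_right] at h1
    exact (mul_eq_zero.1 h1).resolve_left ht0
  have hJQ : ∀ q : Sp ℝ, J e m k2 (c * δ) (Q e m k2 (c * δ) (O (J e m k1 (1 * δ) q))) =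
      O (J e m k1 (1 * δ) q) := by
    intro q
    have h1 := sub_J_Q hdec hK2 (O (J e m k1 (1 * δ) q))
    rw [horth q, mul_zero, zero_smul, add_zero] at h1
    exact h1.symm
  -- the linear isometry of the plane
  let L : Sp ℝ →ₗ[ℝ] Sp ℝ :=
    (Q e m k2 (c * δ)).comp ((O.toLinearEquiv : Sp F →ₗ[ℝ] Sp F).comp (J e m k1 (1 * δ)))
  have hL : ∀ q, L q = Q e m k2 (c * δ) (O (J e m k1 (1 * δ) q)) := fun q => rfl
  have hnorm : ∀ q, ‖L q‖ = ‖q‖ := by
    intro q
    rw [hL, ← J_norm hm he hem hK2, hJQ, O.norm_map, J_norm hm he hem hK1]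
  let Li : Sp ℝ →ₗᵢ[ℝ] Sp ℝ := ⟨L, hnorm⟩
  let O' : Sp ℝ ≃ₗᵢ[ℝ] Sp ℝ := Li.toLinearIsometryEquiv rfl
  refine ⟨O', Q e m k2 (c * δ) τ, ?_⟩
  intro p
  have hO' : O' p = Q e m k2 (c * δ) (O (J e m k1 (1 * δ) p)) := rfl
  have e1 : p ∈ Gr (fun s : ℝ => k1 * f (s • m)) ↔ J e m k1 (1 * δ) p ∈ Gr f := by
    have h1 := gr_iff (m := m) hδ 1 p
    have h2 : (fun s : ℝ => kap δ 1 * f ((1 * s) • m)) = fun s : ℝ => k1 * f (s • m) := by
      funext s; rw [one_mul]
    have h3 : sc f 1 = f := by funext x; unfold sc; rw [one_smul]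
    rw [h2, h3] at h1
    exact h1
  have e2 := gr_iff (m := m) hδ c (O' p + Q e m k2 (c * δ) τ)
  rw [e1, hO, e2, hO', ← map_add]
  have h5 := sub_J_Q hdec hK2 (O (J e m k1 (1 * δ) p) + τ)
  set y := O (J e m k1 (1 * δ) p) + τ with hy
  constructor
  · intro h
    have h6 := La_iff.1 huc y h (-(k2 ^ 2 * (inner ℝ e y.fst + c * δ * y.snd)))
    have h7 : y + (-(k2 ^ 2 * (inner ℝ e y.fst + c * δ * y.snd))) • pt e (c * δ) =
        J e m k2 (c * δ) (Q e m k2 (c * δ) y) := by
      rw [neg_smul, ← sub_eq_add_neg, sub_eq_iff_eq_add]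
      exact h5
    rw [h7] at h6
    exact h6
  · intro h
    have h6 := La_iff.1 huc _ h (k2 ^ 2 * (inner ℝ e y.fst + c * δ * y.snd))
    rw [h5]
    exact h6

end Pool.Agent.Q223.H2.P
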